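import Mathlib

set_option autoImplicit false

/-!
A checker for certificate trees about graphs with at most 16 numbered vertices. A graph is a
symmetric irreflexive Boolean function; a state of the checker is a set `P` of pairs known to be
edges and a set `N` of pairs known to be non-edges (bit `16 i + j`, `i < j`).
-/

namespace Pool.Agent.X56.SC

/-- bit test -/
def tb (m n : ℕ) : Bool := Nat.beq (Nat.mod (Nat.shiftRight m n) 2) 1

theorem tb_eq (m n : ℕ) : tb m n = m.testBit n := by
  rw [Nat.testBit_eq_decide_div_mod_eq]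
  unfold tb
  rw [Bool.eq_iff_iff, Nat.beq_eq, decide_eq_true_iff]
  change (m >>> n) % 2 = 1 ↔ _
  rw [Nat.shiftRight_eq_div_pow]

/-- index of a pair -/
def ix (i j : ℕ) : ℕ :=
  bif Nat.ble i j then Nat.add (Nat.mul 16 i) j else Nat.add (Nat.mul 16 j) i

/-- value at an index -/
def gk (g : ℕ → ℕ → Bool) (k : ℕ) : Bool := g (k / 16) (k % 16)

/-- a symmetric irreflexive relation -/
def SI (g : ℕ → ℕ → Bool) : Prop := (∀ i j, g i j = g j i) ∧ ∀ i, g i i = false

theorem gk_ix {g : ℕ → ℕ → Bool} (hg : SI g) {i j : ℕ} (hi : i < 16) (hj : j < 16) :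
    gk g (ix i j) = g i j := by
  unfold gk ix
  by_cases h : i ≤ j
  · have : Nat.ble i j = true := Nat.ble_eq.mpr h
    rw [this]
    change g ((16 * i + j) / 16) ((16 * i + j) % 16) = _
    rw [show (16 * i + j) / 16 = i by omega, show (16 * i + j) % 16 = j by omega]
  · have : Nat.ble i j = false := by
      rw [Bool.eq_false_iff]; intro h'; exact h (Nat.ble_eq.mp h')
    rw [this]
    change g ((16 * j + i) / 16) ((16 * j + i) % 16) = _
    rw [show (16 * j + i) / 16 = j by omega, show (16 * j + i) % 16 = i by omega]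
    exact hg.1 j i

/-- agreement of a graph with a state -/
def Ag (g : ℕ → ℕ → Bool) (P N : ℕ) : Prop :=
  ∀ k, (P.testBit k = true → gk g k = true) ∧ (N.testBit k = true → gk g k = false)

theorem Ag.zero (g : ℕ → ℕ → Bool) : Ag g 0 0 := by
  intro k; simp

theorem Ag.or {g : ℕ → ℕ → Bool} {P N P' N' : ℕ} (h : Ag g P N) (h' : Ag g P' N') :
    Ag g (Nat.lor P P') (Nat.lor N N') := by
  intro k
  change ((P ||| P').testBit k = true → _) ∧ ((N ||| N').testBit k = true → _)
  rw [Nat.testBit_or, Nat.testBit_or]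
  refine ⟨fun hh => ?_, fun hh => ?_⟩
  · rcases Bool.or_eq_true _ _ ▸ hh with hh | hh
    · exact (h k).1 hh
    · exact (h' k).1 hh
  · rcases Bool.or_eq_true _ _ ▸ hh with hh | hh
    · exact (h k).2 hh
    · exact (h' k).2 hh

theorem Ag.insN {g : ℕ → ℕ → Bool} {P N k : ℕ} (h : Ag g P N) (hk : gk g k = false) :
    Ag g P (Nat.lor N (Nat.pow 2 k)) := by
  intro j
  refine ⟨(h j).1, ?_⟩
  change (N ||| 2 ^ k).testBit j = true → _
  rw [Nat.testBit_or, Nat.testBit_two_pow]
  intro hh
  rcases Bool.or_eq_true _ _ ▸ hh with hh | hh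
  · exact (h j).2 hh
  · rw [← of_decide_eq_true hh]; exact hk

theorem Ag.insP {g : ℕ → ℕ → Bool} {P N k : ℕ} (h : Ag g P N) (hk : gk g k = true) :
    Ag g (Nat.lor P (Nat.pow 2 k)) N := by
  intro j
  refine ⟨?_, (h j).2⟩
  change (P ||| 2 ^ k).testBit j = true → _
  rw [Nat.testBit_or, Nat.testBit_two_pow]
  intro hh
  rcases Bool.or_eq_true _ _ ▸ hh with hh | hh
  · exact (h j).1 hh
  · rw [← of_decide_eq_true hh]; exact hk

/-- no pair between the two lists is an edge -/
def sepB (N : ℕ) (b c : List ℕ) : Bool := b.all fun x => c.all fun y => tb N (ix x y)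

/-- all pairs of the list are edges -/
def cliB (P : ℕ) : List ℕ → Bool
  | [] => true
  | x :: l => (l.all fun y => tb P (ix x y)) && cliB P l

/-- a class given by blocks -/
def okC (P N : ℕ) : List (List ℕ) → Bool
  | [] => true
  | b :: c => (Nat.ble b.length 2 || cliB P b) && (c.all fun d => sepB N b d) && okC P N c

/-- the relation is transitive on the list -/
def CL (g : ℕ → ℕ → Bool) (l : List ℕ) : Prop :=
  ∀ x ∈ l, ∀ y ∈ l, ∀ z ∈ l, g x y = true → g y z = true → x ≠ z → g x z = true

theorem Ag.P {g : ℕ → ℕ → Bool} (hg : SI g) {P N : ℕ} (h : Ag g P N) {i j : ℕ} (hi : i < 16)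
    (hj : j < 16) (hh : tb P (ix i j) = true) : g i j = true := by
  rw [← gk_ix hg hi hj]; rw [tb_eq] at hh; exact (h _).1 hh

theorem Ag.N {g : ℕ → ℕ → Bool} (hg : SI g) {P N : ℕ} (h : Ag g P N) {i j : ℕ} (hi : i < 16)
    (hj : j < 16) (hh : tb N (ix i j) = true) : g i j = false := by
  rw [← gk_ix hg hi hj]; rw [tb_eq] at hh; exact (h _).2 hh

theorem cliB_sound {g : ℕ → ℕ → Bool} (hg : SI g) {P N : ℕ} (h : Ag g P N) :
    ∀ (l : List ℕ), (∀ x ∈ l, x < 16) → cliB P l = true →
      ∀ x ∈ l, ∀ y ∈ l, x ≠ y → g x y = true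
  | [], _, _ => by simp
  | a :: l, hb, hc => by
      simp only [cliB, Bool.and_eq_true, List.all_eq_true] at hc
      intro x hx y hy hxy
      rcases List.mem_cons.mp hx with hx' | hx'
      · rcases List.mem_cons.mp hy with hy' | hy'
        · exact absurd (hx'.trans hy'.symm) hxy
        · subst hx'; exact h.P hg (hb _ hx) (hb _ hy) (hc.1 y hy')
      · rcases List.mem_cons.mp hy with hy' | hy'
        · subst hy'; rw [hg.1]; exact h.P hg (hb _ hy) (hb _ hx) (hc.1 x hx')
        · exact cliB_sound hg h l (fun z hz => hb z (by simp [hz])) hc.2 x hx' y hy' hxy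

theorem okC_sound {g : ℕ → ℕ → Bool} (hg : SI g) {P N : ℕ} (h : Ag g P N) :
    ∀ (c : List (List ℕ)), (∀ x ∈ c.flatten, x < 16) → okC P N c = true → CL g c.flatten
  | [], _, _ => by intro x hx; simp at hx
  | b :: c, hb, hc => by
      simp only [okC, Bool.and_eq_true, List.all_eq_true, Bool.or_eq_true] at hc
      obtain ⟨⟨h1, h2⟩, h3⟩ := hc
      have hbb : ∀ x ∈ b, x < 16 := fun x hx => hb x (by simp [hx])
      have hcc : ∀ x ∈ c.flatten, x < 16 := fun x hx => hb x (by
        rw [List.flatten_cons]; exact List.mem_append_right _ hx)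
      have ih := okC_sound hg h c hcc h3
      have sep : ∀ x ∈ b, ∀ y ∈ c.flatten, g x y = false := by
        intro x hx y hy
        obtain ⟨d, hd, hyd⟩ := List.mem_flatten.mp hy
        have := h2 d hd
        simp only [sepB, List.all_eq_true] at this
        exact h.N hg (hbb x hx) (hcc y hy) (this x hx y hyd)
      have sep' : ∀ x ∈ b, ∀ y ∈ c.flatten, g y x = false := fun x hx y hy => by
        rw [hg.1]; exact sep x hx y hy
      intro x hx y hy z hz hxy hyz hxz
      rw [List.flatten_cons, List.mem_append] at hx hy hz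
      rcases hy with hy | hy
      · have hx' : x ∈ b := by
          rcases hx with hx | hx
          · exact hx
          · rw [sep' y hy x hx] at hxy; exact absurd hxy (by simp)
        have hz' : z ∈ b := by
          rcases hz with hz | hz
          · exact hz
          · rw [sep y hy z hz] at hyz; exact absurd hyz (by simp)
        have nxy : x ≠ y := by rintro rfl; rw [hg.2] at hxy; exact absurd hxy (by simp)
        have nyz : y ≠ z := by rintro rfl; rw [hg.2] at hyz; exact absurd hyz (by simp)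
        rcases h1 with h1 | h1
        · exfalso
          have hl : b.length ≤ 2 := Nat.ble_eq.mp h1
          match b, hl, hx', hy, hz' with
          | [], _, hx', _, _ => simp at hx'
          | [a], _, hx', hy, _ => simp at hx' hy; exact nxy (hx'.trans hy.symm)
          | [a, a'], _, hx', hy, hz' =>
            simp at hx' hy hz'
            rcases hx' with rfl | rfl <;> rcases hy with rfl | rfl <;> rcases hz' with rfl | rfl <;>
              first | exact nxy rfl | exact nyz rfl | exact hxz rfl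
        · exact cliB_sound hg h b hbb h1 x hx' z hz' hxz
      · have hx' : x ∈ c.flatten := by
          rcases hx with hx | hx
          · rw [sep x hx y hy] at hxy; exact absurd hxy (by simp)
          · exact hx
        have hz' : z ∈ c.flatten := by
          rcases hz with hz | hz
          · rw [sep' z hz y hy] at hyz; exact absurd hyz (by simp)
          · exact hz
        exact ih x hx' y hy z hz' hxy hyz hxz

/-- mask of a list -/
def msk : List ℕ → ℕ
  | [] => 0
  | v :: l => Nat.lor (Nat.pow 2 v) (msk l)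

theorem testBit_msk : ∀ (l : List ℕ) (v : ℕ), (msk l).testBit v = true ↔ v ∈ l
  | [], v => by simp [msk]
  | a :: l, v => by
      change ((2 ^ a ||| msk l).testBit v = true) ↔ _
      rw [Nat.testBit_or, Nat.testBit_two_pow, Bool.or_eq_true, testBit_msk l v,
        decide_eq_true_iff, List.mem_cons]
      constructor
      · rintro (h | h)
        · exact Or.inl h.symm
        · exact Or.inr h
      · rintro (h | h)
        · exact Or.inl h.symm
        · exact Or.inr h

/-- decoding of a list of classes -/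
def parse : ℕ → ℕ → List ℕ → List (List ℕ) → List (List (List ℕ)) → List (List (List ℕ))
  | 0, _, _, _, acc => acc
  | f + 1, x, b, c, acc =>
    bif Nat.beq (Nat.mod x 16) 14 then parse f (Nat.div x 16) [] (b :: c) acc
    else bif Nat.beq (Nat.mod x 16) 15 then
      bif Nat.beq (Nat.div x 16) 0 then (b :: c) :: acc
      else parse f (Nat.div x 16) [] [] ((b :: c) :: acc)
    else parse f (Nat.div x 16) (Nat.mod x 16 :: b) c acc

/-- decoding of a list of digits -/
def digs : ℕ → ℕ → List ℕ
  | 0, _ => []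
  | f + 1, x => Nat.mod x 16 :: digs f (Nat.div x 16)

/-- a covering of `0, …, n-1` by at most `r` classes -/
def Cov (n r : ℕ) (g : ℕ → ℕ → Bool) : Prop :=
  ∃ cls : List (List ℕ), cls.length ≤ r ∧ (∀ v < n, ∃ l ∈ cls, v ∈ l) ∧ ∀ l ∈ cls, CL g l

/-- a class with `m` elements -/
def Clu (n m : ℕ) (g : ℕ → ℕ → Bool) : Prop :=
  ∃ l : List ℕ, l.length = m ∧ l.Nodup ∧ (∀ v ∈ l, v < n) ∧ CL g l

/-- a pattern: number of vertices and values at some pairs -/
abbrev Pt := ℕ × List (ℕ × ℕ × Bool)

/-- a pattern occurs -/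
def Occ (n : ℕ) (pats : List Pt) (pc : List ℕ → Bool) (g : ℕ → ℕ → Bool) : Prop :=
  ∃ q ∈ pats, ∃ p : List ℕ, p.length = q.1 ∧ p.Nodup ∧ (∀ v ∈ p, v < n) ∧ pc p = true ∧
    ∀ t ∈ q.2, g (p.getD t.1 0) (p.getD t.2.1 0) = t.2.2

/-- no repetitions -/
def nd : List ℕ → Bool
  | [] => true
  | x :: l => (l.all fun y => !(Nat.beq x y)) && nd l

theorem nd_sound : ∀ (l : List ℕ), nd l = true → l.Nodup
  | [], _ => List.nodup_nil
  | x :: l, h => by
      simp only [nd, Bool.and_eq_true, List.all_eq_true] at h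
      refine List.nodup_cons.mpr ⟨fun hx => ?_, nd_sound l h.2⟩
      have := h.1 x hx
      simp at this

/-- leaves: covers -/
def lf0 (n r P N x : ℕ) : Bool :=
  let c := parse 32 x [] [] []
  Nat.ble c.length r && Nat.beq (msk c.flatten.flatten) (Nat.pow 2 n - 1) && c.all (okC P N)

/-- leaves: classes -/
def lf1 (n m P N x : ℕ) : Bool :=
  match parse 32 x [] [] [] with
  | [c] => okC P N c && Nat.beq c.flatten.length m && nd c.flatten &&
      c.flatten.all (fun v => Nat.ble (v + 1) n)
  | _ => false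

/-- leaves: patterns -/
def lf2 (n : ℕ) (pats : List Pt) (pc : List ℕ → Bool) (P N x : ℕ) : Bool :=
  match pats[Nat.mod x 256]? with
  | none => false
  | some q =>
    let p := digs q.1 (Nat.div x 256)
    nd p && p.all (fun v => Nat.ble (v + 1) n) && pc p &&
      q.2.all fun t => bif t.2.2 then tb P (ix (p.getD t.1 0) (p.getD t.2.1 0))
        else tb N (ix (p.getD t.1 0) (p.getD t.2.1 0))

theorem lf0_sound {g : ℕ → ℕ → Bool} (hg : SI g) {n r P N x : ℕ} (hn : n ≤ 16) (h : Ag g P N)
    (hl : lf0 n r P N x = true) : Cov n r g := by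
  unfold lf0 at hl
  simp only [Bool.and_eq_true, List.all_eq_true] at hl
  obtain ⟨⟨h1, h2⟩, h3⟩ := hl
  set c := parse 32 x [] [] [] with hc
  have h2' : msk c.flatten.flatten = 2 ^ n - 1 := Nat.beq_eq ▸ h2
  have hm : ∀ v, v ∈ c.flatten.flatten ↔ v < n := by
    intro v
    rw [← testBit_msk, h2', Nat.testBit_two_pow_sub_one, decide_eq_true_iff]
  refine ⟨c.map List.flatten, ?_, ?_, ?_⟩
  · rw [List.length_map]; exact Nat.ble_eq.mp h1
  · intro v hv
    have hv' := (hm v).mpr hv
    obtain ⟨b, hb, hvb⟩ := List.mem_flatten.mp hv'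
    obtain ⟨d, hd, hbd⟩ := List.mem_flatten.mp hb
    exact ⟨d.flatten, List.mem_map.mpr ⟨d, hd, rfl⟩, List.mem_flatten.mpr ⟨b, hbd, hvb⟩⟩
  · intro l hl
    obtain ⟨d, hd, rfl⟩ := List.mem_map.mp hl
    refine okC_sound hg h d (fun v hv => ?_) (h3 d hd)
    obtain ⟨b, hb, hvb⟩ := List.mem_flatten.mp hv
    have : v < n := (hm v).mp (List.mem_flatten.mpr ⟨b, List.mem_flatten.mpr ⟨d, hd, hb⟩, hvb⟩)
    omega

theorem lf1_sound {g : ℕ → ℕ → Bool} (hg : SI g) {n m P N x : ℕ} (hn : n ≤ 16) (h : Ag g P N)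
    (hl : lf1 n m P N x = true) : Clu n m g := by
  unfold lf1 at hl
  split at hl
  · rename_i c hc
    simp only [Bool.and_eq_true, List.all_eq_true] at hl
    obtain ⟨⟨⟨h1, h2⟩, h3⟩, h4⟩ := hl
    have h4' : ∀ v ∈ c.flatten, v < n := fun v hv => Nat.ble_eq.mp (h4 v hv)
    exact ⟨c.flatten, Nat.beq_eq ▸ h2, nd_sound _ h3, h4',
      okC_sound hg h c (fun v hv => by have := h4' v hv; omega) h1⟩
  · exact absurd hl (by simp)

theorem length_digs : ∀ (f x : ℕ), (digs f x).length = f
  | 0, _ => rfl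
  | f + 1, x => by simp [digs, length_digs f]

theorem lf2_sound {g : ℕ → ℕ → Bool} (hg : SI g) {n : ℕ} {pats : List Pt} {pc : List ℕ → Bool}
    {P N x : ℕ} (hn : n ≤ 16) (hn0 : 0 < n) (h : Ag g P N)
    (hl : lf2 n pats pc P N x = true) : Occ n pats pc g := by
  unfold lf2 at hl
  split at hl
  · exact absurd hl (by simp)
  · rename_i q hq
    simp only [Bool.and_eq_true, List.all_eq_true] at hl
    obtain ⟨⟨⟨h1, h2⟩, h3⟩, h4⟩ := hl
    have h2' : ∀ v ∈ digs q.1 (Nat.div x 256), v < n := fun v hv => Nat.ble_eq.mp (h2 v hv)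
    have hgd : ∀ i, (digs q.1 (Nat.div x 256)).getD i 0 < 16 := by
      intro i
      by_cases hi : i < (digs q.1 (Nat.div x 256)).length
      · rw [List.getD_eq_getElem _ _ hi]
        have := h2' _ (List.getElem_mem hi)
        omega
      · rw [List.getD_eq_default _ _ (not_lt.mp hi)]; omega
    refine ⟨q, List.mem_of_getElem? hq, _, length_digs _ _, nd_sound _ h1, h2', h3, ?_⟩
    intro t ht
    have := h4 t ht
    cases hb : t.2.2
    · rw [hb] at this
      exact h.N hg (hgd _) (hgd _) this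
    · rw [hb] at this
      exact h.P hg (hgd _) (hgd _) this

/-- the three kinds of leaves -/
def lf (n r m : ℕ) (pats : List Pt) (pc : List ℕ → Bool) (P N x : ℕ) : Bool :=
  bif Nat.beq (Nat.mod x 4) 0 then lf0 n r P N (Nat.div x 4)
  else bif Nat.beq (Nat.mod x 4) 1 then lf1 n m P N (Nat.div x 4)
  else lf2 n pats pc P N (Nat.div x 4)

/-- the conclusion of a certificate -/
def Good (n r m : ℕ) (pats : List Pt) (pc : List ℕ → Bool) (g : ℕ → ℕ → Bool) : Prop :=
  Cov n r g ∨ Clu n m g ∨ Occ n pats pc g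

theorem lf_sound {g : ℕ → ℕ → Bool} (hg : SI g) {n r m : ℕ} {pats : List Pt}
    {pc : List ℕ → Bool} {P N x : ℕ} (hn : n ≤ 16) (hn0 : 0 < n) (h : Ag g P N)
    (hl : lf n r m pats pc P N x = true) : Good n r m pats pc g := by
  unfold lf at hl
  cases h0 : Nat.beq (Nat.mod x 4) 0
  · rw [h0] at hl
    cases h1 : Nat.beq (Nat.mod x 4) 1
    · rw [h1] at hl; exact Or.inr (Or.inr (lf2_sound hg hn hn0 h hl))
    · rw [h1] at hl; exact Or.inr (Or.inl (lf1_sound hg hn h hl))
  · rw [h0] at hl; exact Or.inl (lf0_sound hg hn h hl)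

/-- run a certificate tree, then continue with the rest of the stream -/
def run (lf : ℕ → ℕ → ℕ → Bool) : ℕ → ℕ → ℕ → ℕ → (ℕ → Bool) → Bool
  | 0, _, _, _, _ => false
  | f + 1, P, N, s, k =>
    bif Nat.beq (Nat.mod s 2) 0 then
      run lf f P (Nat.lor N (Nat.pow 2 (Nat.div (Nat.mod s 79228162514264337593543950336) 2)))
        (Nat.shiftRight s 96) (fun s' =>
          run lf f (Nat.lor P (Nat.pow 2 (Nat.div (Nat.mod s 79228162514264337593543950336) 2)))
            N s' k)
    else lf P N (Nat.div (Nat.mod s 79228162514264337593543950336) 2) &&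
      k (Nat.shiftRight s 96)

theorem run_sound {lf : ℕ → ℕ → ℕ → Bool} {g : ℕ → ℕ → Bool} {G : Prop}
    (hlf : ∀ P N x, Ag g P N → lf P N x = true → G) :
    ∀ (f P N s : ℕ) (k : ℕ → Bool), run lf f P N s k = true →
      (Ag g P N → G) ∧ ∃ s', k s' = true
  | 0, P, N, s, k, h => by simp [run] at h
  | f + 1, P, N, s, k, h => by
      unfold run at h
      cases h0 : Nat.beq (Nat.mod s 2) 0
      · rw [h0] at h
        simp only [cond_false, Bool.and_eq_true] at h
        exact ⟨fun hA => hlf P N _ hA h.1, _, h.2⟩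
      · rw [h0] at h
        simp only [cond_true] at h
        have h1 := run_sound hlf f _ _ _ _ h
        obtain ⟨s', hs'⟩ := h1.2
        have h2 := run_sound hlf f _ _ _ _ hs'
        refine ⟨fun hA => ?_, h2.2⟩
        cases hk : gk g (Nat.div (Nat.mod s 79228162514264337593543950336) 2)
        · exact h1.1 (hA.insN hk)
        · exact h2.1 (hA.insP hk)

theorem run_good {g : ℕ → ℕ → Bool} (hg : SI g) {n r m : ℕ} {pats : List Pt}
    {pc : List ℕ → Bool} (hn : n ≤ 16) (hn0 : 0 < n) {f P N s : ℕ} {k : ℕ → Bool}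
    (h : run (lf n r m pats pc) f P N s k = true) :
    (Ag g P N → Good n r m pats pc g) ∧ ∃ s', k s' = true :=
  run_sound (fun _ _ _ hA hl => lf_sound hg hn hn0 hA hl) f P N s k h

end Pool.Agent.X56.SC
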