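import Pool.Agent.X56.SC.RunC

set_option autoImplicit false

/-! Certificates: fourteen vertices. -/

namespace Pool.Agent.X56.SC

/-- certificates -/
def ss1 : List ℕ :=
  [0x7ed4b9b00007d3b7e4a7dc29fe9708100007d3b7e497e9f28fdc20100007d3b7e48fedc17a1f28100000000000000000000000800000000000000000000006a00000000000000000000006e000000000000000007ed4b9b000000000000000007ed4b1b000000000000000007ed4a1b0000000000000007b73a729b00000000000000000000006800000000000000000000006c00000000000000000000006e000000000000000007ed4b9b000000000000000007ed4b1b000000000000000007ed4a9b0000000000000007b73af21b00000000000000000000006a00000000000000000000006c00000000000000000000006e000000000000000007ed4b9b000000000000000007ed4a9b000000000000000007ed4b9300007d37ee4af99738fdc20100007ed2fe48fdc31fa1738100000000000000000000000800000000000000000000004e0000000000000007af3a731b0000000000000000000000680000000000000007b73af21b00000000000000000000006c00000000000000000000006a00000000000000000000006e000000000000000007ed4b9b000000000000000007ed4b1b000000000000000007ed4b9300007ed37e4af99738fdc20100007ed37e48fdc29fa1738100000000000000000000000800000000000000000000004e0000000000000007b73a729b0000000000000000000000680000000000000007b73af21b00000000000000000000006a00000000000000000000006c00000000000000000000006e,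
   0x7ed4b9b00007d3b7e4a7dc29fe8f10100007e3b79f297ed48fdc20100007d3b7e497edc0fa1f28100000000000000000000000800000000000000000000006a00000000000000000000006e000000000000000007ed4b9b000000000000000007ed4b1b000000000000000007ed4a1b0000000000000007b73a729b00000000000000000000006800000000000000000000006c00000000000000000000006e000000000000000007ed4b9b000000000000000007ed4b1b000000000000000007ed4a9b0000000000000007b73af21b00000000000000000000006a00000000000000000000006c00000000000000000000006e000000000000000007ed4b9b000000000000000007ed4a9b00007baf21fe07d4b17edc0900007baf31fe17ed48fdc2010000000000000007ef21730300000000000000000000000800000000000000000000004c0000000000000007af3a731b0000000000000000000000680000000000000007b73af21b00000000000000000000006c00000000000000000000006a00000000000000000000006e,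
   0x7ed4b9b000000000000000007ed4b93000000000000000007ed4b8b00000000000000079718f38300000000000000000000002e00000000000000000000004e00000000000000000000006e000000000000000007ed4b9b000000000000000007ed4b1b000000000000000007ed4a1b0000000000000007b73a729b00000000000000000000006800000000000000000000006c00000000000000000000006e000000000000000007ed4b9b000000000000000007ed4b1b000000000000000007ed4a9b0000000000000007b73af21b00000000000000000000006a00000000000000000000006c00000000000000000000006e,
   0x7ed4b9b000000000000000007ed4b93000000000000000007ed4b8300000000000000079738f18300000000000000000000000e00000000000000000000004e00000000000000000000006e000000000000000007ed4b9b000000000000000007ed4b1b000000000000000007ed4a1b0000000000000007b73a729b00000000000000000000006800000000000000000000006c00000000000000000000006e,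
   0x7e3b7ef28fd4997dc20100007d3b7e4afdc197a0f681000000000000000000000008]

theorem cC_1 : allC codes1 ss1 = true := by
  decide +kernel

end Pool.Agent.X56.SC
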