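import Pool.Agent.X56.SC.Main

set_option autoImplicit false

/-! Every graph with fourteen vertices can be covered by four classes. -/

open Finset

namespace Pool.Agent.X56.SC

variable {V : Type} [DecidableEq V] {G : SimpleGraph V}

theorem cl_insert_iso {S : Finset V} {a : V} (h : Cl G S) (ha : ∀ x ∈ S, ¬ G.Adj a x) :
    Cl G (insert a S) := by
  have ha' : ∀ x ∈ S, ¬ G.Adj x a := fun x hx hh => ha x hx hh.symm
  intro x hx y hy z hz a1 a2 a3
  rw [mem_insert] at hx hy hz
  rcases hy with rfl | hy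
  · rcases hx with rfl | hx
    · exact absurd a1 (G.loopless.irrefl _)
    · exact absurd a1 (ha' x hx)
  · rcases hx with rfl | hx
    · exact absurd a1 (ha y hy)
    · rcases hz with rfl | hz
      · exact absurd a2 (ha' y hy)
      · exact h x hx y hy z hz a1 a2 a3

theorem cl_insert_full {S : Finset V} {a : V} (h : ∀ x ∈ S, ∀ y ∈ S, x ≠ y → G.Adj x y)
    (ha : ∀ x ∈ S, G.Adj a x) : Cl G (insert a S) := by
  intro x hx y hy z hz a1 a2 a3
  rw [mem_insert] at hx hz
  rcases hx with rfl | hx
  · rcases hz with rfl | hz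
    · exact absurd rfl a3
    · exact ha z hz
  · rcases hz with rfl | hz
    · exact (ha x hx).symm
    · exact h x hx z hz a3

theorem K3_full {s : ℕ → V} {S : Finset V} (hs : Lb 3 s S) (h : HP G s ptK3.2) :
    ∀ x ∈ S, ∀ y ∈ S, x ≠ y → G.Adj x y := by
  have h01 := gr_true.mp (h (0, 1, true) (by decide))
  have h02 := gr_true.mp (h (0, 2, true) (by decide))
  have h12 := gr_true.mp (h (1, 2, true) (by decide))
  intro x hx y hy hxy
  rw [hs.2, mem_image] at hx hy
  obtain ⟨i, hi, rfl⟩ := hx
  obtain ⟨j, hj, rfl⟩ := hy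
  rw [mem_range] at hi hj
  interval_cases i <;> interval_cases j <;>
    first
      | exact absurd rfl hxy
      | exact h01
      | exact h01.symm
      | exact h02
      | exact h02.symm
      | exact h12
      | exact h12.symm

/-- the common end of the two cases with a vertex and its neighbours -/
theorem four_end {A : Finset V} {v : ℕ → V} (hv : Lb 10 v A)
    (h : Good 10 0 4 [] pcT (gr G v)) : ∃ S ⊆ A, S.card = 4 ∧ Cl G S := by
  rcases h with h | h | h
  · exact absurd h (not_cov_zero (by norm_num))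
  · exact clu_cl hv h
  · obtain ⟨q, hq, _⟩ := h; simp at hq

theorem four10 {A : Finset V} (hA : A.card = 10) : ∃ S ⊆ A, S.card = 4 ∧ Cl G S := by
  classical
  obtain ⟨a, ha⟩ : A.Nonempty := card_pos.mp (by omega)
  set B := (A.erase a).filter (fun x => G.Adj a x) with hB
  set C := (A.erase a).filter (fun x => ¬ G.Adj a x) with hC
  have hsum : B.card + C.card = 9 := by
    rw [hB, hC, card_filter_add_card_filter_not, card_erase_of_mem ha, hA]
  have hBA : B ⊆ A := (filter_subset _ _).trans (erase_subset _ _)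
  have hCA : C ⊆ A := (filter_subset _ _).trans (erase_subset _ _)
  have haB : ∀ x ∈ B, G.Adj a x := fun x hx => (mem_filter.mp hx).2
  have haC : ∀ x ∈ C, ¬ G.Adj a x := fun x hx => (mem_filter.mp hx).2
  have hnB : a ∉ B := fun h => by simpa using (mem_filter.mp h).1
  have hnC : a ∉ C := fun h => by simpa using (mem_filter.mp h).1
  have isoC : ∀ S ⊆ C, S.card = 3 → Cl G S → ∃ S ⊆ A, S.card = 4 ∧ Cl G S := by
    intro S hS hc hCl
    refine ⟨insert a S, insert_subset ha (hS.trans hCA), ?_,
      cl_insert_iso hCl (fun x hx => haC x (hS hx))⟩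
    rw [card_insert_of_notMem (fun h => hnC (hS h)), hc]
  by_cases h5 : 5 ≤ C.card
  · obtain ⟨D, hD, hDc⟩ := exists_subset_card_eq h5
    obtain ⟨S, hS, hc, hCl⟩ := five3' (G := G) hDc
    exact isoC S (hS.trans hD) hc hCl
  by_cases h7 : 7 ≤ B.card
  · obtain ⟨D, hD, hDc⟩ := exists_subset_card_eq h7
    obtain ⟨v, hv⟩ := exists_Lb hDc (by norm_num)
    rcases (run_good (gr_SI G v) (by norm_num) (by norm_num) c_t7).1 (Ag.zero _) with h | h | h
    · exact absurd h (not_cov_zero (by norm_num))
    · exact absurd h (not_clu_succ (by norm_num))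
    · obtain ⟨q, hq, p, _, _, _, _, S, hS, hL, hP⟩ := occ_lb hv h
      simp only [List.mem_cons, List.not_mem_nil, or_false] at hq
      rcases hq with rfl | rfl
      · refine ⟨insert a S, insert_subset ha ((hS.trans hD).trans hBA), ?_,
          cl_insert_full (K3_full hL hP) (fun x hx => haB x (hD (hS hx)))⟩
        rw [card_insert_of_notMem (fun h => hnB (hD (hS h))), hL.card]
        rfl
      · exact ⟨S, (hS.trans hD).trans hBA, hL.card, cl_P22 hL hP⟩
  have hdBC : Disjoint C B := by
    rw [disjoint_left]; intro x hx hx'; exact haC x hx (haB x hx')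
  have hunion : {a} ∪ (C ∪ B) = A := by
    ext x
    simp only [mem_union, mem_singleton]
    constructor
    · rintro (rfl | h | h)
      · exact ha
      · exact hCA h
      · exact hBA h
    · intro hx
      by_cases hxa : x = a
      · exact Or.inl hxa
      · by_cases hadj : G.Adj a x
        · exact Or.inr (Or.inr (mem_filter.mpr ⟨mem_erase.mpr ⟨hxa, hx⟩, hadj⟩))
        · exact Or.inr (Or.inl (mem_filter.mpr ⟨mem_erase.mpr ⟨hxa, hx⟩, hadj⟩))
  have hda : Disjoint {a} (C ∪ B) := by
    rw [disjoint_singleton_left, mem_union]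
    rintro (h | h)
    · exact hnC h
    · exact hnB h
  have hLa : Lb 1 (fun _ => a) ({a} : Finset V) := by
    refine ⟨fun i hi j hj _ => ?_, by simp⟩
    have h1 : i < 1 := hi
    have h2 : j < 1 := hj
    omega
  have hC34 : C.card = 4 ∨ C.card = 3 := by omega
  rcases hC34 with hC4 | hC3
  · -- the non-neighbours form a cycle of length four
    obtain ⟨w, hw⟩ := exists_Lb hC4 (by norm_num)
    rcases (run_good (gr_SI G w) (by norm_num) (by norm_num) c_t4).1 (Ag.zero _) with h | h | h
    · exact absurd h (not_cov_zero (by norm_num))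
    · exact absurd h (not_clu_succ (by norm_num))
    · obtain ⟨q, hq, p, _, _, _, _, S, hS, hL, hP⟩ := occ_lb hw h
      simp only [List.mem_cons, List.not_mem_nil, or_false] at hq
      rcases hq with rfl | rfl | rfl
      · exact isoC S hS hL.card (cl_K3 hL hP)
      · exact isoC S hS hL.card (cl_P21 hL hP)
      · have hSC := sub_eq hS hL.card hC4
        rw [hSC] at hL
        have hB5 : B.card = 5 := by omega
        obtain ⟨u, hu⟩ := exists_Lb hB5 (by norm_num)
        have hL' : Lb 4 _ C := hL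
        generalize hcdef : (fun i => w (p.getD i 0)) = c at hL' hP
        have hv := hLa.glue (hL'.glue hu hdBC) hda
        rw [hunion] at hv
        refine four_end hv ((run_good (gr_SI G _) (by norm_num) (by norm_num) c_ta).1 ?_)
        refine (ag_pl (gr_SI G _) (by decide) _ ?_).or
          (ag_pl (gr_SI G _) (by decide) _ (at_of hP (m := 4) (by decide) ?_))
        · have h1 : ∀ i < 4, gr G (glue 1 (fun _ => a) (glue 4 c u)) 0 (1 + i) = false := by
            intro i hi
            rw [gr_false, glue_ge, glue_lt hi]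
            exact haC _ (hL'.mem hi)
          have h2 : ∀ i < 5, gr G (glue 1 (fun _ => a) (glue 4 c u)) 0 (1 + (4 + i)) = true := by
            intro i hi
            rw [gr_true, glue_ge, glue_ge]
            exact haB _ (hu.mem hi)
          intro t ht
          simp only [ptRA, List.mem_cons, List.not_mem_nil, or_false] at ht
          rcases ht with rfl | rfl | rfl | rfl | rfl | rfl | rfl | rfl | rfl
          · exact h1 0 (by norm_num)
          · exact h1 1 (by norm_num)
          · exact h1 2 (by norm_num)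
          · exact h1 3 (by norm_num)
          · exact h2 0 (by norm_num)
          · exact h2 1 (by norm_num)
          · exact h2 2 (by norm_num)
          · exact h2 3 (by norm_num)
          · exact h2 4 (by norm_num)
        · intro i hi; interval_cases i <;> rfl
  · obtain ⟨w, hw⟩ := exists_Lb hC3 (by norm_num)
    rcases (run_good (gr_SI G w) (by norm_num) (by norm_num) c_t3).1 (Ag.zero _) with h | h | h
    · exact absurd h (not_cov_zero (by norm_num))
    · exact absurd h (not_clu_succ (by norm_num))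
    · obtain ⟨q, hq, p, _, _, _, _, S, hS, hL, hP⟩ := occ_lb hw h
      simp only [List.mem_cons, List.not_mem_nil, or_false] at hq
      rcases hq with rfl | rfl | rfl
      · exact isoC S hS hL.card (cl_K3 hL hP)
      · exact isoC S hS hL.card (cl_P21 hL hP)
      · have hSC := sub_eq hS hL.card hC3
        rw [hSC] at hL
        have hB6 : B.card = 6 := by omega
        obtain ⟨u, hu⟩ := exists_Lb hB6 (by norm_num)
        have hL' : Lb 3 _ C := hL
        generalize hcdef : (fun i => w (p.getD i 0)) = c at hL' hP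
        have hv := hLa.glue (hL'.glue hu hdBC) hda
        rw [hunion] at hv
        refine four_end hv ((run_good (gr_SI G _) (by norm_num) (by norm_num) c_tb).1 ?_)
        refine (ag_pl (gr_SI G _) (by decide) _ ?_).or
          (ag_pl (gr_SI G _) (by decide) _ (at_of hP (m := 3) (by decide) ?_))
        · have h1 : ∀ i < 3, gr G (glue 1 (fun _ => a) (glue 3 c u)) 0 (1 + i) = false := by
            intro i hi
            rw [gr_false, glue_ge, glue_lt hi]
            exact haC _ (hL'.mem hi)
          have h2 : ∀ i < 6, gr G (glue 1 (fun _ => a) (glue 3 c u)) 0 (1 + (3 + i)) = true := by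
            intro i hi
            rw [gr_true, glue_ge, glue_ge]
            exact haB _ (hu.mem hi)
          intro t ht
          simp only [ptRB, List.mem_cons, List.not_mem_nil, or_false] at ht
          rcases ht with rfl | rfl | rfl | rfl | rfl | rfl | rfl | rfl | rfl
          · exact h1 0 (by norm_num)
          · exact h1 1 (by norm_num)
          · exact h1 2 (by norm_num)
          · exact h2 0 (by norm_num)
          · exact h2 1 (by norm_num)
          · exact h2 2 (by norm_num)
          · exact h2 3 (by norm_num)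
          · exact h2 4 (by norm_num)
          · exact h2 5 (by norm_num)
        · intro i hi; interval_cases i <;> rfl

theorem cl4 {S : Finset V} (hc : S.card = 4) (hCl : Cl G S) :
    ∃ s, Lb 4 s S ∧ (HP G s ptK4.2 ∨ HP G s ptK31.2 ∨ HP G s ptP22.2) := by
  obtain ⟨w, hw⟩ := exists_Lb hc (by norm_num)
  rcases (run_good (gr_SI G w) (by norm_num) (by norm_num) c_t4b).1 (Ag.zero _) with h | h | h
  · exact absurd h (not_cov_zero (by norm_num))
  · exact absurd h (not_clu_succ (by norm_num))
  · obtain ⟨q, hq, p, _, _, _, _, S', hS, hL, hP⟩ := occ_lb hw h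
    simp only [List.mem_cons, List.not_mem_nil, or_false] at hq
    rcases hq with rfl | rfl | rfl | rfl
    · have := sub_eq hS hL.card hc
      subst this; exact ⟨_, hL, Or.inl hP⟩
    · have := sub_eq hS hL.card hc
      subst this; exact ⟨_, hL, Or.inr (Or.inl hP)⟩
    · have := sub_eq hS hL.card hc
      subst this; exact ⟨_, hL, Or.inr (Or.inr hP)⟩
    · exfalso
      have h01 := gr_true.mp (hP (0, 1, true) (by decide))
      have h12 := gr_true.mp (hP (1, 2, true) (by decide))
      have h02 := gr_false.mp (hP (0, 2, false) (by decide))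
      refine h02 (hCl _ (hS (hL.mem (i := 0) (by decide))) _ (hS (hL.mem (i := 1) (by decide)))
        _ (hS (hL.mem (i := 2) (by decide))) h01 h12 ?_)
      intro h
      have := hL.1 (show 0 < ptP3.1 by decide) (show 2 < ptP3.1 by decide) h
      omega

theorem ten_end {A : Finset V} {v : ℕ → V} (hA : A.card = 10) (hv : Lb 10 v A)
    (hn : ¬ Sc G 3 A) (h : Good 10 3 5 [ptP22] pcT (gr G v)) :
    ∃ S ⊆ A, ∃ s, Lb 4 s S ∧ HP G s ptP22.2 := by
  rcases h with h | h | h
  · exact absurd (cov_sc hv h) hn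
  · obtain ⟨S, hS, hc, hCl⟩ := clu_cl hv h
    exact absurd (Sc.ext hCl (five2 (card_sdiff' hA hS hc)) sdiff_cover) hn
  · obtain ⟨q, hq, p, _, _, _, _, S', hS, hL, hP⟩ := occ_lb hv h
    simp only [List.mem_cons, List.not_mem_nil, or_false] at hq
    subst hq
    exact ⟨S', hS, _, hL, hP⟩

theorem ten {A : Finset V} (hA : A.card = 10) (hn : ¬ Sc G 3 A) :
    ∃ S ⊆ A, ∃ s, Lb 4 s S ∧ HP G s ptP22.2 := by
  obtain ⟨S, hS, hc, hCl⟩ := four10 (G := G) hA
  obtain ⟨s, hL, hs⟩ := cl4 hc hCl
  have hT := card_sdiff' hA hS hc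
  rcases six (G := G) hT with h | ⟨t, hLt, ht⟩
  · exact absurd (Sc.ext hCl h sdiff_cover) hn
  have hv := hL.glue hLt disjoint_sdiff
  rw [union_sdiff_eq hS] at hv
  have hg := gr_SI G (glue 4 s t)
  rcases hs with hs | hs | hs
  · rcases ht with ht | ht | ht
    · exact ten_end hA hv hn ((run_good hg (by norm_num) (by norm_num) c_tB_0_0).1
        (place4 hs ht (by decide) (by decide)))
    · exact ten_end hA hv hn ((run_good hg (by norm_num) (by norm_num) c_tB_0_1).1
        (place4 hs ht (by decide) (by decide)))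
    · exact ten_end hA hv hn ((run_good hg (by norm_num) (by norm_num) c_tB_0_2).1
        (place4 hs ht (by decide) (by decide)))
  · rcases ht with ht | ht | ht
    · exact ten_end hA hv hn ((run_good hg (by norm_num) (by norm_num) c_tB_1_0).1
        (place4 hs ht (by decide) (by decide)))
    · exact ten_end hA hv hn ((run_good hg (by norm_num) (by norm_num) c_tB_1_1).1
        (place4 hs ht (by decide) (by decide)))
    · exact ten_end hA hv hn ((run_good hg (by norm_num) (by norm_num) c_tB_1_2).1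
        (place4 hs ht (by decide) (by decide)))
  · exact ⟨S, hS, s, hL, hs⟩

theorem rp_lt (c : ℕ) :
    (rp c).all (fun t => decide (t.1 < 10) && decide (t.2.1 < 10)) = true := rfl

theorem tenA_end {S T : Finset V} {s t : ℕ → V} {codes : List ℕ} (hL : Lb 4 s S)
    (hLt : Lb 6 t T) (hd : Disjoint S T) (hn : ¬ Sc G 3 (S ∪ T))
    (h : Good 10 3 5 (codes.map fun c => (10, rp c)) pcA (gr G (glue 4 s t))) :
    ∃ c ∈ codes, ∃ s', Lb 4 s' S ∧ HP G (glue 4 s' t) (rp c) := by
  have hv := hL.glue hLt hd
  have hc10 : (S ∪ T).card = 10 := hv.card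
  rcases h with h | h | h
  · exact absurd (cov_sc hv h) hn
  · obtain ⟨S', hS', hc, hCl⟩ := clu_cl hv h
    exact absurd (Sc.ext hCl (five2 (card_sdiff' hc10 hS' hc)) sdiff_cover) hn
  · obtain ⟨q, hq, p, hpc, hlen, hlt, hnd, S', hS', hL', hP⟩ := occ_lb hv h
    obtain ⟨c, hc, rfl⟩ := List.mem_map.mp hq
    have hp4 : p.drop 4 = [4, 5, 6, 7, 8, 9] := by
      unfold pcA at hpc; exact eq_of_beq hpc
    have hlen' : p.length = 10 := hlen
    have hge : ∀ i, i < 6 → p.getD (4 + i) 0 = 4 + i := by
      intro i hi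
      have h1 : p.getD (4 + i) 0 = (p.drop 4).getD i 0 := by
        rw [List.getD_eq_getElem?_getD, List.getD_eq_getElem?_getD, List.getElem?_drop]
      rw [h1, hp4]
      interval_cases i <;> rfl
    have hsm : ∀ i, i < 4 → p.getD i 0 < 4 := by
      intro i hi
      have hi' : i < p.length := by omega
      have h1 : p.getD i 0 < 10 := by
        rw [List.getD_eq_getElem _ _ hi']; exact hlt _ (List.getElem_mem hi')
      by_contra h2
      obtain ⟨j, hj⟩ : ∃ j, p.getD i 0 = 4 + j := ⟨p.getD i 0 - 4, by omega⟩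
      have hj6 : j < 6 := by omega
      have h3 := hge j hj6
      have h4 : p.getD i 0 = p.getD (4 + j) 0 := hj.trans h3.symm
      have hj' : 4 + j < p.length := by omega
      rw [List.getD_eq_getElem _ _ hi', List.getD_eq_getElem _ _ hj'] at h4
      have := (List.Nodup.getElem_inj_iff hnd).mp h4
      omega
    refine ⟨c, hc, fun i => glue 4 s t (p.getD i 0), ?_, ?_⟩
    · have hinj : Set.InjOn (fun i => glue 4 s t (p.getD i 0)) (Set.Iio 4) := by
        intro i hi j hj hij
        exact hL'.1 (show i < 10 by have : i < 4 := hi; omega)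
          (show j < 10 by have : j < 4 := hj; omega) hij
      refine ⟨hinj, ?_⟩
      symm
      refine sub_eq (n := 4) ?_ ?_ hL.card
      · intro x hx
        obtain ⟨i, hi, rfl⟩ := mem_image.mp hx
        simp only [glue_lt (hsm i (mem_range.mp hi))]
        exact hL.mem (hsm i (mem_range.mp hi))
      · rw [card_image_of_injOn, card_range]
        intro i hi j hj hij
        exact hinj (by simpa using hi) (by simpa using hj) hij
    · have key : ∀ i < 10, glue 4 (fun i => glue 4 s t (p.getD i 0)) t i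
          = glue 4 s t (p.getD i 0) := by
        intro i hi
        by_cases h4 : i < 4
        · rw [glue_lt h4]
        · obtain ⟨j, rfl⟩ : ∃ j, i = 4 + j := ⟨i - 4, by omega⟩
          rw [glue_ge, hge j (by omega), glue_ge]
      intro t' ht'
      have h1 := (List.all_eq_true.mp (rp_lt c)) t' ht'
      rw [Bool.and_eq_true, decide_eq_true_iff, decide_eq_true_iff] at h1
      rw [← hP t' ht']
      unfold gr
      rw [key _ h1.1, key _ h1.2]

/-- the codes that belong to a six-vertex pattern -/
theorem tenA {S T : Finset V} {s t : ℕ → V} (hL : Lb 4 s S) (hs : HP G s ptP22.2)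
    (hLt : Lb 6 t T) (hd : Disjoint S T) (hn : ¬ Sc G 3 (S ∪ T)) :
    (HP G t ptT0.2 → ∃ c ∈ codes0, ∃ s', Lb 4 s' S ∧ HP G (glue 4 s' t) (rp c)) ∧
    (HP G t ptT1.2 → ∃ c ∈ codes1, ∃ s', Lb 4 s' S ∧ HP G (glue 4 s' t) (rp c)) ∧
    (HP G t ptT2.2 → ∃ c ∈ codes2, ∃ s', Lb 4 s' S ∧ HP G (glue 4 s' t) (rp c)) := by
  have hg := gr_SI G (glue 4 s t)
  refine ⟨fun ht => ?_, fun ht => ?_, fun ht => ?_⟩
  · exact tenA_end hL hLt hd hn ((run_good hg (by norm_num) (by norm_num) c_tA_0).1
      (place4 hs ht (by decide) (by decide)))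
  · exact tenA_end hL hLt hd hn ((run_good hg (by norm_num) (by norm_num) c_tA_1).1
      (place4 hs ht (by decide) (by decide)))
  · exact tenA_end hL hLt hd hn ((run_good hg (by norm_num) (by norm_num) c_tA_2).1
      (place4 hs ht (by decide) (by decide)))

/-- the end of the proof: both codes are known -/
theorem last {A S1 S2 T : Finset V} {s1 s2 t : ℕ → V} {c1 c2 : ℕ} (hA : A.card = 14)
    (h1 : Lb 4 s1 S1) (h2 : Lb 4 s2 S2) (hT : Lb 6 t T) (hd : Disjoint S2 T)
    (hd' : Disjoint S1 (S2 ∪ T)) (hU : S1 ∪ (S2 ∪ T) = A)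
    (hc1 : HP G (glue 4 s1 t) (rp c1)) (hc2 : HP G (glue 4 s2 t) (rp c2))
    (h : ∀ g : ℕ → ℕ → Bool, SI g → At g q1 (rp c1) → At g q2 (rp c2) →
      Good 14 4 5 [] pcT g) : Sc G 4 A := by
  have hv := h1.glue (h2.glue hT hd) hd'
  rw [hU] at hv
  have hG := h (gr G (glue 4 s1 (glue 4 s2 t))) (gr_SI G _)
    (at_of hc1 (rp_lt c1) (by intro i hi; interval_cases i <;> rfl))
    (at_of hc2 (rp_lt c2) (by intro i hi; interval_cases i <;> rfl))
  rcases hG with h | h | h
  · exact cov_sc hv h
  · obtain ⟨S, hS, hc, hCl⟩ := clu_cl hv h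
    exact Sc.ext hCl (nine (card_sdiff' hA hS hc)) sdiff_cover
  · obtain ⟨q, hq, _⟩ := h; simp at hq

theorem fourteen {A : Finset V} (hA : A.card = 14) : Sc G 4 A := by
  by_contra hn
  obtain ⟨B, hB, hBc⟩ := exists_subset_card_eq (show 10 ≤ A.card by omega)
  obtain ⟨S0, hS0, hc0, hCl0⟩ := four10 (G := G) hBc
  have hS0A := hS0.trans hB
  obtain ⟨S1, hS1, s1, hL1, hs1⟩ := ten (G := G) (card_sdiff' hA hS0A hc0)
    (fun h => hn (Sc.ext hCl0 h sdiff_cover))
  have hS1A : S1 ⊆ A := hS1.trans sdiff_subset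
  have hCl1 := cl_P22 hL1 hs1
  have hcA1 := card_sdiff' hA hS1A hL1.card
  have hnA1 : ¬ Sc G 3 (A \ S1) := fun h => hn (Sc.ext hCl1 h sdiff_cover)
  obtain ⟨S2, hS2, s2, hL2, hs2⟩ := ten (G := G) hcA1 hnA1
  have hCl2 := cl_P22 hL2 hs2
  have hcT := card_sdiff' hcA1 hS2 hL2.card
  have hU2 : S2 ∪ ((A \ S1) \ S2) = A \ S1 := union_sdiff_eq hS2
  have hd2 : Disjoint S2 ((A \ S1) \ S2) := disjoint_sdiff
  have hd1 : Disjoint S1 ((A \ S1) \ S2) := disjoint_sdiff.mono_right sdiff_subset
  have hS12 : Disjoint S1 S2 := disjoint_sdiff.mono_right hS2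
  have hU1 : S1 ∪ (S2 ∪ ((A \ S1) \ S2)) = A := by rw [hU2]; exact union_sdiff_eq hS1A
  have hn1 : ¬ Sc G 3 (S1 ∪ ((A \ S1) \ S2)) := by
    intro h
    refine hn (Sc.ext hCl2 h ?_)
    intro x hx
    by_cases hx1 : x ∈ S1
    · exact mem_union_left _ (mem_union_left _ hx1)
    · by_cases hx2 : x ∈ S2
      · exact mem_union_right _ hx2
      · exact mem_union_left _ (mem_union_right _
          (mem_sdiff.mpr ⟨mem_sdiff.mpr ⟨hx, hx1⟩, hx2⟩))
  have hn2 : ¬ Sc G 3 (S2 ∪ ((A \ S1) \ S2)) := by rw [hU2]; exact hnA1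
  rcases six (G := G) hcT with h | ⟨t, hLt, ht⟩
  · exact hnA1 (Sc.ext hCl2 h sdiff_cover)
  have hU1' : S2 ∪ (S1 ∪ ((A \ S1) \ S2)) = A := by
    rw [← union_assoc, union_comm S2 S1, union_assoc]; exact hU1
  have hd12 : Disjoint S1 (S2 ∪ ((A \ S1) \ S2)) := disjoint_union_right.mpr ⟨hS12, hd1⟩
  have hd21 : Disjoint S2 (S1 ∪ ((A \ S1) \ S2)) := disjoint_union_right.mpr ⟨hS12.symm, hd2⟩
  have H1 := tenA hL1 hs1 hLt hd1 hn1
  have H2 := tenA hL2 hs2 hLt hd2 hn2
  have fin : ∀ (codes ss : List ℕ), allC codes ss = true →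
      (∃ c ∈ codes, ∃ s', Lb 4 s' S1 ∧ HP G (glue 4 s' t) (rp c)) →
      (∃ c ∈ codes, ∃ s', Lb 4 s' S2 ∧ HP G (glue 4 s' t) (rp c)) → Sc G 4 A := by
    rintro codes ss hss ⟨c1, hc1, s1', hL1', hP1⟩ ⟨c2, hc2, s2', hL2', hP2⟩
    rcases allC_sound codes ss hss c1 hc1 c2 hc2 with h | h
    · exact last hA hL1' hL2' hLt hd2 hd12 hU1 hP1 hP2 h
    · exact last hA hL2' hL1' hLt hd1 hd21 hU1' hP2 hP1 h
  rcases ht with ht | ht | ht
  · exact hn (fin codes0 ss0 cC_0 (H1.1 ht) (H2.1 ht))
  · exact hn (fin codes1 ss1 cC_1 (H1.2.1 ht) (H2.2.1 ht))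
  · exact hn (fin codes2 ss2 cC_2 (H1.2.2 ht) (H2.2.2 ht))

end Pool.Agent.X56.SC
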