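import Pool.Agent.X56.SC.DataA0
import Pool.Agent.X56.SC.DataA1
import Pool.Agent.X56.SC.DataA2
import Pool.Agent.X56.SC.DataC0
import Pool.Agent.X56.SC.DataC1
import Pool.Agent.X56.SC.DataC2

set_option autoImplicit false

/-!
Every graph with fourteen vertices can be covered by four classes that induce disjoint unions of
complete graphs.
-/

open Finset

namespace Pool.Agent.X56.SC

variable {V : Type} [DecidableEq V]

/-- adjacency of numbered vertices -/
noncomputable def gr (G : SimpleGraph V) (v : ℕ → V) (i j : ℕ) : Bool :=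
  @decide (G.Adj (v i) (v j)) (Classical.dec _)

omit [DecidableEq V] in
theorem gr_true {G : SimpleGraph V} {v : ℕ → V} {i j : ℕ} :
    gr G v i j = true ↔ G.Adj (v i) (v j) := by
  unfold gr; exact @decide_eq_true_iff _ (Classical.dec _)

omit [DecidableEq V] in
theorem gr_false {G : SimpleGraph V} {v : ℕ → V} {i j : ℕ} :
    gr G v i j = false ↔ ¬ G.Adj (v i) (v j) := by
  rw [← gr_true, Bool.not_eq_true]

omit [DecidableEq V] in
theorem gr_SI (G : SimpleGraph V) (v : ℕ → V) : SI (gr G v) := by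
  refine ⟨fun i j => ?_, fun i => ?_⟩
  · rw [Bool.eq_iff_iff, gr_true, gr_true]; exact G.adj_comm _ _
  · rw [gr_false]; exact G.loopless.irrefl _

/-- the set induces a disjoint union of complete graphs -/
def Cl (G : SimpleGraph V) (A : Finset V) : Prop :=
  ∀ x ∈ A, ∀ y ∈ A, ∀ z ∈ A, G.Adj x y → G.Adj y z → x ≠ z → G.Adj x z

/-- the set is covered by `k` classes -/
def Sc (G : SimpleGraph V) (k : ℕ) (A : Finset V) : Prop :=
  ∃ f : V → ℕ, (∀ x ∈ A, f x < k) ∧ ∀ x ∈ A, ∀ y ∈ A, ∀ z ∈ A, f x = f y → f y = f z →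
    G.Adj x y → G.Adj y z → x ≠ z → G.Adj x z

theorem Sc.ext {G : SimpleGraph V} {k : ℕ} {A B S : Finset V} (hS : Cl G S) (h : Sc G k B)
    (hA : A ⊆ B ∪ S) : Sc G (k + 1) A := by
  obtain ⟨f, h1, h2⟩ := h
  have hB : ∀ x ∈ A, x ∉ S → x ∈ B := by
    intro x hx hxS
    rcases mem_union.mp (hA hx) with h | h
    · exact h
    · exact absurd h hxS
  refine ⟨fun x => if x ∈ S then k else f x, ?_, ?_⟩
  · intro x hx
    by_cases hxS : x ∈ S
    · simp [hxS]
    · simp only [hxS, if_false]; have := h1 x (hB x hx hxS); omega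
  · intro x hx y hy z hz hxy hyz a1 a2 a3
    by_cases hxS : x ∈ S <;> by_cases hyS : y ∈ S <;> by_cases hzS : z ∈ S <;>
      simp only [hxS, hyS, hzS, if_true, if_false] at hxy hyz
    · exact hS x hxS y hyS z hzS a1 a2 a3
    · have := h1 z (hB z hz hzS); omega
    · have := h1 y (hB y hy hyS); omega
    · have := h1 y (hB y hy hyS); omega
    · have := h1 x (hB x hx hxS); omega
    · have := h1 x (hB x hx hxS); omega
    · have := h1 y (hB y hy hyS); omega
    · exact h2 x (hB x hx hxS) y (hB y hy hyS) z (hB z hz hzS) hxy hyz a1 a2 a3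

/-- a numbering of a set -/
def Lb (n : ℕ) (v : ℕ → V) (A : Finset V) : Prop :=
  Set.InjOn v (Set.Iio n) ∧ A = (range n).image v

theorem Lb.card {n : ℕ} {v : ℕ → V} {A : Finset V} (h : Lb n v A) : A.card = n := by
  rw [h.2, card_image_of_injOn, card_range]
  intro x hx y hy hxy
  exact h.1 (by simpa using hx) (by simpa using hy) hxy

theorem Lb.mem {n : ℕ} {v : ℕ → V} {A : Finset V} (h : Lb n v A) {i : ℕ} (hi : i < n) :
    v i ∈ A := by
  rw [h.2]; exact mem_image_of_mem v (mem_range.mpr hi)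

theorem exists_Lb {A : Finset V} {n : ℕ} (hA : A.card = n) (hn : 0 < n) :
    ∃ v : ℕ → V, Lb n v A := by
  classical
  obtain ⟨a0, ha0⟩ : A.Nonempty := card_pos.mp (by omega)
  let e := A.equivFin
  refine ⟨fun i => if h : i < A.card then (e.symm ⟨i, h⟩ : V) else a0, ?_, ?_⟩
  · intro i hi j hj hij
    have hi' : i < A.card := by rw [hA]; exact hi
    have hj' : j < A.card := by rw [hA]; exact hj
    simp only [hi', hj', dif_pos] at hij
    have := e.symm.injective (Subtype.ext hij)
    simpa using this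
  · ext x
    rw [mem_image]
    constructor
    · intro hx
      refine ⟨(e ⟨x, hx⟩).1, ?_, ?_⟩
      · rw [mem_range, ← hA]; exact (e ⟨x, hx⟩).2
      · simp only [(e ⟨x, hx⟩).2, dif_pos]
        simp
    · rintro ⟨i, hi, rfl⟩
      have hi' : i < A.card := by rw [hA]; exact mem_range.mp hi
      simp only [hi', dif_pos]
      exact (e.symm ⟨i, hi'⟩).2

/-- one numbering after another -/
def glue (m : ℕ) (s t : ℕ → V) (i : ℕ) : V := if i < m then s i else t (i - m)

theorem Lb.glue {m n : ℕ} {s t : ℕ → V} {S T : Finset V} (hs : Lb m s S) (ht : Lb n t T)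
    (hd : Disjoint S T) : Lb (m + n) (glue m s t) (S ∪ T) := by
  constructor
  · intro i hi j hj hij
    simp only [SC.glue] at hij
    have hi' : i < m + n := hi
    have hj' : j < m + n := hj
    by_cases h1 : i < m <;> by_cases h2 : j < m <;> simp only [h1, h2, if_true, if_false] at hij
    · exact hs.1 h1 h2 hij
    · exfalso
      exact disjoint_left.mp hd (hs.mem h1) (hij ▸ ht.mem (by omega))
    · exfalso
      exact disjoint_left.mp hd (hs.mem h2) (hij ▸ ht.mem (by omega))
    · have := ht.1 (show i - m < n by omega) (show j - m < n by omega) hij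
      omega
  · ext x
    rw [mem_union, hs.2, ht.2, mem_image, mem_image, mem_image]
    constructor
    · rintro (⟨i, hi, rfl⟩ | ⟨i, hi, rfl⟩)
      · rw [mem_range] at hi
        exact ⟨i, mem_range.mpr (by omega), by simp [SC.glue, hi]⟩
      · rw [mem_range] at hi
        exact ⟨m + i, mem_range.mpr (by omega), by simp [SC.glue]⟩
    · rintro ⟨i, hi, rfl⟩
      rw [mem_range] at hi
      by_cases h : i < m
      · exact Or.inl ⟨i, mem_range.mpr h, by simp [SC.glue, h]⟩
      · exact Or.inr ⟨i - m, mem_range.mpr (by omega), by simp [SC.glue, h]⟩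

omit [DecidableEq V] in
theorem glue_lt {m : ℕ} {s t : ℕ → V} {i : ℕ} (h : i < m) : glue m s t i = s i := by
  simp [glue, h]

omit [DecidableEq V] in
theorem glue_ge {m : ℕ} {s t : ℕ → V} (i : ℕ) : glue m s t (m + i) = t i := by
  simp [glue]

theorem cov_sc {G : SimpleGraph V} {n r : ℕ} {v : ℕ → V} {A : Finset V} (hv : Lb n v A)
    (h : Cov n r (gr G v)) : Sc G r A := by
  classical
  obtain ⟨cls, h1, h2, h3⟩ := h
  refine ⟨fun u => cls.findIdx (fun l => decide (∃ i ∈ l, v i = u)), ?_, ?_⟩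
  · intro x hx
    rw [hv.2, mem_image] at hx
    obtain ⟨i, hi, rfl⟩ := hx
    obtain ⟨l, hl, hil⟩ := h2 i (mem_range.mp hi)
    refine lt_of_lt_of_le ?_ h1
    rw [List.findIdx_lt_length]
    exact ⟨l, hl, decide_eq_true ⟨i, hil, rfl⟩⟩
  · have key : ∀ x ∈ A, ∃ h : cls.findIdx (fun l => decide (∃ i ∈ l, v i = x)) < cls.length,
        ∃ i ∈ cls[cls.findIdx (fun l => decide (∃ i ∈ l, v i = x))], v i = x := by
      intro x hx
      rw [hv.2, mem_image] at hx
      obtain ⟨i, hi, rfl⟩ := hx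
      obtain ⟨l, hl, hil⟩ := h2 i (mem_range.mp hi)
      have hlt : cls.findIdx (fun l => decide (∃ j ∈ l, v j = v i)) < cls.length := by
        rw [List.findIdx_lt_length]
        exact ⟨l, hl, decide_eq_true ⟨i, hil, rfl⟩⟩
      exact ⟨hlt, of_decide_eq_true (List.findIdx_getElem (w := hlt))⟩
    intro x hx y hy z hz hxy hyz a1 a2 a3
    obtain ⟨px, i, hi, hvi⟩ := key x hx
    obtain ⟨py, j, hj, hvj⟩ := key y hy
    obtain ⟨pz, k, hk, hvk⟩ := key z hz
    simp only at hxy hyz
    have hj' : j ∈ cls[cls.findIdx (fun l => decide (∃ i ∈ l, v i = x))] := by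
      simpa only [hxy] using hj
    have hk' : k ∈ cls[cls.findIdx (fun l => decide (∃ i ∈ l, v i = x))] := by
      simpa only [hxy, hyz] using hk
    have := h3 _ (List.getElem_mem px) i hi j hj' k hk'
      (gr_true.mpr (by rw [hvi, hvj]; exact a1)) (gr_true.mpr (by rw [hvj, hvk]; exact a2))
      (by rintro rfl; exact a3 (hvi.symm.trans hvk))
    rw [gr_true, hvi, hvk] at this
    exact this

theorem clu_cl {G : SimpleGraph V} {n m : ℕ} {v : ℕ → V} {A : Finset V} (hv : Lb n v A)
    (h : Clu n m (gr G v)) : ∃ S ⊆ A, S.card = m ∧ Cl G S := by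
  classical
  obtain ⟨l, h1, h2, h3, h4⟩ := h
  refine ⟨l.toFinset.image v, ?_, ?_, ?_⟩
  · intro x hx
    obtain ⟨i, hi, rfl⟩ := mem_image.mp hx
    exact hv.mem (h3 i (List.mem_toFinset.mp hi))
  · rw [card_image_of_injOn, List.toFinset_card_of_nodup h2, h1]
    intro i hi j hj hij
    exact hv.1 (h3 i (by simpa using hi)) (h3 j (by simpa using hj)) hij
  · intro x hx y hy z hz a1 a2 a3
    obtain ⟨i, hi, rfl⟩ := mem_image.mp hx
    obtain ⟨j, hj, rfl⟩ := mem_image.mp hy
    obtain ⟨k, hk, rfl⟩ := mem_image.mp hz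
    exact gr_true.mp (h4 i (List.mem_toFinset.mp hi) j (List.mem_toFinset.mp hj) k
      (List.mem_toFinset.mp hk) (gr_true.mpr a1) (gr_true.mpr a2) (by rintro rfl; exact a3 rfl))

/-- a pattern that occurs gives a numbered subset -/
theorem occ_lb {G : SimpleGraph V} {n : ℕ} {pats : List Pt} {pc : List ℕ → Bool} {v : ℕ → V}
    {A : Finset V} (hv : Lb n v A) (h : Occ n pats pc (gr G v)) :
    ∃ q ∈ pats, ∃ p : List ℕ, pc p = true ∧ p.length = q.1 ∧ (∀ x ∈ p, x < n) ∧ p.Nodup ∧
      ∃ S ⊆ A, Lb q.1 (fun i => v (p.getD i 0)) S ∧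
      ∀ t ∈ q.2, gr G (fun i => v (p.getD i 0)) t.1 t.2.1 = t.2.2 := by
  classical
  obtain ⟨q, hq, p, h1, h2, h3, h4, h5⟩ := h
  have hin : Set.InjOn (fun i => v (p.getD i 0)) (Set.Iio q.1) := by
    intro i hi j hj hij
    have hi' : i < p.length := by rw [h1]; exact hi
    have hj' : j < p.length := by rw [h1]; exact hj
    simp only [List.getD_eq_getElem _ _ hi', List.getD_eq_getElem _ _ hj'] at hij
    have := hv.1 (h3 _ (List.getElem_mem hi')) (h3 _ (List.getElem_mem hj')) hij
    exact (List.Nodup.getElem_inj_iff h2).mp this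
  refine ⟨q, hq, p, h4, h1, h3, h2, (range q.1).image (fun i => v (p.getD i 0)), ?_,
    ⟨hin, rfl⟩, h5⟩
  intro x hx
  obtain ⟨i, hi, rfl⟩ := mem_image.mp hx
  have hi' : i < p.length := by rw [h1]; exact mem_range.mp hi
  simp only [List.getD_eq_getElem _ _ hi']
  exact hv.mem (h3 _ (List.getElem_mem hi'))

theorem not_cov_zero {n : ℕ} {g : ℕ → ℕ → Bool} (hn : 0 < n) : ¬ Cov n 0 g := by
  rintro ⟨cls, h1, h2, _⟩
  obtain ⟨l, hl, _⟩ := h2 0 hn
  have : cls = [] := List.length_eq_zero_iff.mp (by omega)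
  rw [this] at hl; simp at hl

theorem not_clu_succ {n m : ℕ} {g : ℕ → ℕ → Bool} (hm : n < m) : ¬ Clu n m g := by
  rintro ⟨l, h1, h2, h3, _⟩
  have : l.toFinset ⊆ range n := fun x hx => mem_range.mpr (h3 x (List.mem_toFinset.mp hx))
  have h4 := card_le_card this
  rw [List.toFinset_card_of_nodup h2, card_range] at h4
  omega

end Pool.Agent.X56.SC
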