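import Pool.Agent.X56.SC.Graph

set_option autoImplicit false

/-! Every graph with fourteen vertices can be covered by four classes. -/

open Finset

namespace Pool.Agent.X56.SC

/-- certificate t3 -/
def s_t3 : ℕ :=
  0x10800500000000000000000010081500000000000000000000002400000000000000000010801500000000000000000010800d00000000000000000000002400000000000000000000000400000000000000000009001500000000000000000001080d00000000000000000000000400000000000000000009000d000000000000000000000024000000000000000000000002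

theorem c_t3 : run (lf 3 0 4 [ptK3, ptP21, ptP3] pcT) 40 0 0 s_t3 (fun _ => true) = true := by
  decide +kernel

variable {V : Type} [DecidableEq V] {G : SimpleGraph V}

/-- the numbered set satisfies a pattern -/
def HP (G : SimpleGraph V) (s : ℕ → V) (e : List (ℕ × ℕ × Bool)) : Prop :=
  ∀ t ∈ e, gr G s t.1 t.2.1 = t.2.2

omit [DecidableEq V] in
theorem at_of {s v : ℕ → V} {e : List (ℕ × ℕ × Bool)} {m : ℕ} {p : List ℕ} (h : HP G s e)
    (he : e.all (fun t => decide (t.1 < m) && decide (t.2.1 < m)) = true)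
    (hp : ∀ i < m, v (p.getD i 0) = s i) : At (gr G v) p e := by
  intro t ht
  rw [List.all_eq_true] at he
  have h1 := he t ht
  rw [Bool.and_eq_true, decide_eq_true_iff, decide_eq_true_iff] at h1
  rw [← h t ht]
  unfold gr
  rw [hp _ h1.1, hp _ h1.2]

theorem cl_of_ok {m : ℕ} {s : ℕ → V} {S : Finset V} (hs : Lb m s S)
    {e : List (ℕ × ℕ × Bool)} (h : HP G s e) (c : List (List ℕ))
    (he : e.all (fun t => decide (t.1 < m) && decide (t.2.1 < m)) = true)
    (hok : okC (plP (List.range m) e) (plN (List.range m) e) c = true)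
    (hm : m ≤ 16) (hc : (List.range m).all (fun i => decide (i ∈ c.flatten)) = true)
    (hb : c.flatten.all (fun i => decide (i < 16)) = true) : Cl G S := by
  have hg := gr_SI G s
  have hA : Ag (gr G s) (plP (List.range m) e) (plN (List.range m) e) := by
    refine ag_pl hg (fun v hv => by have := List.mem_range.mp hv; omega) _ (at_of h he ?_)
    intro i hi
    rw [List.getD_eq_getElem _ _ (by rw [List.length_range]; exact hi), List.getElem_range]
  have hb' : ∀ x ∈ c.flatten, x < 16 := fun x hx =>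
    of_decide_eq_true ((List.all_eq_true.mp hb) x hx)
  have hCL := okC_sound hg hA c hb' hok
  intro x hx y hy z hz a1 a2 a3
  rw [hs.2, mem_image] at hx hy hz
  obtain ⟨i, hi, rfl⟩ := hx
  obtain ⟨j, hj, rfl⟩ := hy
  obtain ⟨k, hk, rfl⟩ := hz
  have hmem : ∀ i ∈ range m, i ∈ c.flatten := fun i hi =>
    of_decide_eq_true ((List.all_eq_true.mp hc) i (List.mem_range.mpr (mem_range.mp hi)))
  exact gr_true.mp (hCL i (hmem i hi) j (hmem j hj) k (hmem k hk) (gr_true.mpr a1)
    (gr_true.mpr a2) (by rintro rfl; exact a3 rfl))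

theorem cl_K3 {s : ℕ → V} {S : Finset V} (hs : Lb 3 s S) (h : HP G s ptK3.2) : Cl G S :=
  cl_of_ok hs h [[0, 1, 2]] (by decide) (by decide +kernel) (by norm_num) (by decide) (by decide)

theorem cl_P21 {s : ℕ → V} {S : Finset V} (hs : Lb 3 s S) (h : HP G s ptP21.2) : Cl G S :=
  cl_of_ok hs h [[0, 1], [2]] (by decide) (by decide +kernel) (by norm_num) (by decide)
    (by decide)

theorem cl_P22 {s : ℕ → V} {S : Finset V} (hs : Lb 4 s S) (h : HP G s ptP22.2) : Cl G S :=
  cl_of_ok hs h [[0, 1], [2, 3]] (by decide) (by decide +kernel) (by norm_num) (by decide)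
    (by decide)

omit [DecidableEq V] in
theorem sub_eq {S A : Finset V} {n : ℕ} (h : S ⊆ A) (hS : S.card = n) (hA : A.card = n) :
    S = A := eq_of_subset_of_card_le h (by omega)

theorem five2 {A : Finset V} (hA : A.card = 5) : Sc G 2 A := by
  obtain ⟨v, hv⟩ := exists_Lb hA (by norm_num)
  rcases (run_good (gr_SI G v) (by norm_num) (by norm_num) c_t5).1 (Ag.zero _) with h | h | h
  · exact cov_sc hv h
  · exact absurd h (not_clu_succ (by norm_num))
  · obtain ⟨q, hq, _⟩ := h; simp at hq

theorem five3 {A : Finset V} (hA : A.card = 5) :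
    ∃ S ⊆ A, ∃ s, Lb 3 s S ∧ (HP G s ptK3.2 ∨ HP G s ptP21.2) := by
  obtain ⟨v, hv⟩ := exists_Lb hA (by norm_num)
  rcases (run_good (gr_SI G v) (by norm_num) (by norm_num) c_t5b).1 (Ag.zero _) with h | h | h
  · exact absurd h (not_cov_zero (by norm_num))
  · exact absurd h (not_clu_succ (by norm_num))
  · obtain ⟨q, hq, p, _, _, _, _, S, hS, hL, hP⟩ := occ_lb hv h
    simp only [List.mem_cons, List.not_mem_nil, or_false] at hq
    rcases hq with rfl | rfl
    · exact ⟨S, hS, _, hL, Or.inl hP⟩
    · exact ⟨S, hS, _, hL, Or.inr hP⟩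

theorem five3' {A : Finset V} (hA : A.card = 5) : ∃ S ⊆ A, S.card = 3 ∧ Cl G S := by
  obtain ⟨S, hS, s, hL, h | h⟩ := five3 (G := G) hA
  · exact ⟨S, hS, hL.card, cl_K3 hL h⟩
  · exact ⟨S, hS, hL.card, cl_P21 hL h⟩

theorem card_sdiff' {A S : Finset V} {n m : ℕ} (hA : A.card = n) (hS : S ⊆ A)
    (hc : S.card = m) : (A \ S).card = n - m := by
  rw [card_sdiff_of_subset hS, hA, hc]

theorem six {A : Finset V} (hA : A.card = 6) :
    Sc G 2 A ∨ ∃ t, Lb 6 t A ∧ (HP G t ptT0.2 ∨ HP G t ptT1.2 ∨ HP G t ptT2.2) := by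
  obtain ⟨v, hv⟩ := exists_Lb hA (by norm_num)
  rcases (run_good (gr_SI G v) (by norm_num) (by norm_num) c_t6).1 (Ag.zero _) with h | h | h
  · exact Or.inl (cov_sc hv h)
  · exact absurd h (not_clu_succ (by norm_num))
  · obtain ⟨q, hq, p, _, _, _, _, S, hS, hL, hP⟩ := occ_lb hv h
    refine Or.inr ?_
    simp only [List.mem_cons, List.not_mem_nil, or_false] at hq
    rcases hq with rfl | rfl | rfl
    · have := sub_eq hS hL.card hA
      subst this; exact ⟨_, hL, Or.inl hP⟩
    · have := sub_eq hS hL.card hA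
      subst this; exact ⟨_, hL, Or.inr (Or.inl hP)⟩
    · have := sub_eq hS hL.card hA
      subst this; exact ⟨_, hL, Or.inr (Or.inr hP)⟩

theorem sdiff_cover {A S : Finset V} : A ⊆ (A \ S) ∪ S := by
  intro x hx
  by_cases h : x ∈ S
  · exact mem_union_right _ h
  · exact mem_union_left _ (mem_sdiff.mpr ⟨hx, h⟩)

theorem union_sdiff_eq {A S : Finset V} (h : S ⊆ A) : S ∪ (A \ S) = A := by
  rw [union_comm]; exact sdiff_union_of_subset h

theorem nine_fin {A : Finset V} {v : ℕ → V} (hA : A.card = 9) (hv : Lb 9 v A)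
    (h : Good 9 3 4 [] pcT (gr G v)) : Sc G 3 A := by
  rcases h with h | h | h
  · exact cov_sc hv h
  · obtain ⟨S, hS, hc, hCl⟩ := clu_cl hv h
    exact Sc.ext hCl (five2 (card_sdiff' hA hS hc)) sdiff_cover
  · obtain ⟨q, hq, _⟩ := h; simp at hq

theorem place3 {s t : ℕ → V} {es et : List (ℕ × ℕ × Bool)} (hs : HP G s es) (ht : HP G t et)
    (hes : es.all (fun t => decide (t.1 < 3) && decide (t.2.1 < 3)) = true)
    (het : et.all (fun t => decide (t.1 < 6) && decide (t.2.1 < 6)) = true) :
    Ag (gr G (glue 3 s t)) (Nat.lor (plP [0, 1, 2] es) (plP [3, 4, 5, 6, 7, 8] et))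
      (Nat.lor (plN [0, 1, 2] es) (plN [3, 4, 5, 6, 7, 8] et)) := by
  refine (ag_pl (gr_SI G _) (by decide) _ (at_of hs hes ?_)).or
    (ag_pl (gr_SI G _) (by decide) _ (at_of ht het ?_))
  · intro i hi; interval_cases i <;> rfl
  · intro i hi; interval_cases i <;> rfl

theorem place4 {s t : ℕ → V} {es et : List (ℕ × ℕ × Bool)} (hs : HP G s es) (ht : HP G t et)
    (hes : es.all (fun t => decide (t.1 < 4) && decide (t.2.1 < 4)) = true)
    (het : et.all (fun t => decide (t.1 < 6) && decide (t.2.1 < 6)) = true) :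
    Ag (gr G (glue 4 s t)) (Nat.lor (plP [0, 1, 2, 3] es) (plP [4, 5, 6, 7, 8, 9] et))
      (Nat.lor (plN [0, 1, 2, 3] es) (plN [4, 5, 6, 7, 8, 9] et)) := by
  refine (ag_pl (gr_SI G _) (by decide) _ (at_of hs hes ?_)).or
    (ag_pl (gr_SI G _) (by decide) _ (at_of ht het ?_))
  · intro i hi; interval_cases i <;> rfl
  · intro i hi; interval_cases i <;> rfl

theorem nine {A : Finset V} (hA : A.card = 9) : Sc G 3 A := by
  obtain ⟨B, hB, hBc⟩ := exists_subset_card_eq (show 5 ≤ A.card by omega)
  obtain ⟨S, hS, s, hL, hs⟩ := five3 (G := G) hBc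
  have hSA : S ⊆ A := hS.trans hB
  have hT := card_sdiff' hA hSA hL.card
  have hd : Disjoint S (A \ S) := disjoint_sdiff
  have hClS : Cl G S := by
    rcases hs with h | h
    · exact cl_K3 hL h
    · exact cl_P21 hL h
  rcases six (G := G) hT with h | ⟨t, hLt, ht⟩
  · exact Sc.ext hClS h sdiff_cover
  · have hv := hL.glue hLt hd
    rw [union_sdiff_eq hSA] at hv
    have hg := gr_SI G (glue 3 s t)
    rcases hs with hs | hs <;> rcases ht with ht | ht | ht
    · exact nine_fin hA hv ((run_good hg (by norm_num) (by norm_num) c_t9_0_0).1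
        (place3 hs ht (by decide) (by decide)))
    · exact nine_fin hA hv ((run_good hg (by norm_num) (by norm_num) c_t9_0_1).1
        (place3 hs ht (by decide) (by decide)))
    · exact nine_fin hA hv ((run_good hg (by norm_num) (by norm_num) c_t9_0_2).1
        (place3 hs ht (by decide) (by decide)))
    · exact nine_fin hA hv ((run_good hg (by norm_num) (by norm_num) c_t9_1_0).1
        (place3 hs ht (by decide) (by decide)))
    · exact nine_fin hA hv ((run_good hg (by norm_num) (by norm_num) c_t9_1_1).1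
        (place3 hs ht (by decide) (by decide)))
    · exact nine_fin hA hv ((run_good hg (by norm_num) (by norm_num) c_t9_1_2).1
        (place3 hs ht (by decide) (by decide)))

end Pool.Agent.X56.SC
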