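import Pool.Agent.X56.SC.Data

set_option autoImplicit false

/-! Certificates: fourteen vertices. -/

namespace Pool.Agent.X56.SC

/-- first place -/
def q1 : List ℕ := [0, 1, 2, 3, 8, 9, 10, 11, 12, 13]

/-- second place -/
def q2 : List ℕ := [4, 5, 6, 7, 8, 9, 10, 11, 12, 13]

/-- run certificates for a list of second patterns -/
def seqC (P N : ℕ) : List ℕ → ℕ → Bool
  | [], _ => true
  | d :: l, s => run (lf 14 4 5 [] pcT) 20 (Nat.lor P (plP q2 (rp d))) (Nat.lor N (plN q2 (rp d))) s
      (fun s' => seqC P N l s')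

/-- run certificates for all pairs of patterns -/
def allC : List ℕ → List ℕ → Bool
  | [], _ => true
  | c :: cs, s :: ss => seqC (plP q1 (rp c)) (plN q1 (rp c)) (c :: cs) s && allC cs ss
  | _ :: _, [] => false

theorem seqC_sound {P N : ℕ} : ∀ (l : List ℕ) (s : ℕ), seqC P N l s = true →
    ∀ d ∈ l, ∀ g : ℕ → ℕ → Bool, SI g → Ag g P N → At g q2 (rp d) → Good 14 4 5 [] pcT g
  | [], _, _ => by simp
  | d :: l, s, h => by
      unfold seqC at h
      intro d' hd' g hg hA hB
      have h1 := run_good hg (by norm_num) (by norm_num) h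
      rcases List.mem_cons.mp hd' with rfl | hd'
      · exact h1.1 (hA.or (ag_pl hg (by decide) _ hB))
      · obtain ⟨s', hs'⟩ := h1.2
        exact seqC_sound l s' hs' d' hd' g hg hA hB

theorem allC_sound : ∀ (cs ss : List ℕ), allC cs ss = true → ∀ c ∈ cs, ∀ d ∈ cs,
    (∀ g : ℕ → ℕ → Bool, SI g → At g q1 (rp c) → At g q2 (rp d) → Good 14 4 5 [] pcT g) ∨
    (∀ g : ℕ → ℕ → Bool, SI g → At g q1 (rp d) → At g q2 (rp c) → Good 14 4 5 [] pcT g)
  | [], _, _ => by simp
  | c :: cs, [], h => by simp [allC] at h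
  | c :: cs, s :: ss, h => by
      simp only [allC, Bool.and_eq_true] at h
      intro c' hc' d' hd'
      rcases List.mem_cons.mp hc' with h1 | h1
      · subst h1
        exact Or.inl fun g hg hA hB =>
          seqC_sound _ s h.1 d' hd' g hg (ag_pl hg (by decide) _ hA) hB
      · rcases List.mem_cons.mp hd' with h2 | h2
        · subst h2
          exact Or.inr fun g hg hA hB =>
            seqC_sound _ s h.1 c' hc' g hg (ag_pl hg (by decide) _ hA) hB
        · exact allC_sound cs ss h.2 c' h1 d' h2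

end Pool.Agent.X56.SC
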